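import Pool.Agent.J6H94.AP.Stm

/-!
# Normed planes in which a circle is an Apollonius set: the function is quadratic (helper94)
-/

set_option autoImplicit false

namespace Pool.Agent.J6H94.AP

variable {r : ℝ} {h : ℝ → ℝ}

theorem Good.neg (hg : Good r h) : Good r (fun s => h (-s)) where
  r0 := hg.r0
  r1 := hg.r1
  pos s := hg.pos _
  abs s := by have := hg.abs (-s); rwa [abs_neg] at this
  lip s t := by
    have := hg.lip (-s) (-t)
    rwa [show -s - -t = -(s - t) by ring, abs_neg] at this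
  eq1 s := by
    have := hg.eq2 (-s)
    rw [show -(s - r * h (-s)) = -s + r * h (-s) by ring,
      show -(s - h (-s) / r) = -s + h (-s) / r by ring]
    exact this
  eq2 s := by
    have := hg.eq1 (-s)
    rw [show -(s + r * h (-s)) = -s - r * h (-s) by ring,
      show -(s + h (-s) / r) = -s - h (-s) / r by ring]
    exact this

theorem Good.cont (hg : Good r h) : Continuous h := by
  have : LipschitzWith 1 h := by
    apply LipschitzWith.of_dist_le_mul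
    intro s t
    rw [Real.dist_eq, Real.dist_eq]
    simpa using hg.lip s t
  exact this.continuous

theorem Good.rel (hg : Good r h) (s : ℝ) :
    h (s + r * h s) ^ 2 - (s + r * h s) ^ 2 =
      (1 - r ^ 2) * (h s ^ 2 - s ^ 2) +
        r ^ 2 * (h (s + h s / r) ^ 2 - (s + h s / r) ^ 2) := by
  rw [hg.eq2 s]
  have hr : r ≠ 0 := hg.r0.ne'
  field_simp
  ring

theorem Good.nonneg (hg : Good r h) (s : ℝ) : 0 ≤ h s ^ 2 - s ^ 2 := by
  have h1 := hg.abs s
  have h2 : s ^ 2 ≤ h s ^ 2 := by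
    rw [← sq_abs s]
    exact pow_le_pow_left₀ (abs_nonneg s) h1 2
  linarith

theorem Good.half (hg : Good r h) (s : ℝ) : h 0 / 2 ≤ h s := by
  have h1 := hg.abs s
  have h2 := hg.lip 0 s
  rw [zero_sub, abs_neg] at h2
  have h3 := le_abs_self (h 0 - h s)
  linarith

/-- maximum and minimum on a half line -/
theorem Good.maxmin_pos (hdec : S_dec) (hmax : S_max) (hg : Good r h) :
    (∃ y₀, ∀ y ≥ 0, h y ^ 2 - y ^ 2 ≤ h y₀ ^ 2 - y₀ ^ 2) ∧
      ∃ y₀, ∀ y ≥ 0, h y₀ ^ 2 - y₀ ^ 2 ≤ h y ^ 2 - y ^ 2 := by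
  have hc := hg.cont
  constructor
  · obtain ⟨y₀, -, hy⟩ := hmax r h (fun y => h y ^ 2 - y ^ 2) hg (by fun_prop) hg.rel
      (hdec r h hg)
    exact ⟨y₀, hy⟩
  · obtain ⟨y₀, -, hy⟩ := hmax r h (fun y => -(h y ^ 2 - y ^ 2)) hg (by fun_prop)
      (fun s => by rw [hg.rel s]; ring)
      (fun η hη => ⟨0, fun s hs => by
        have h1 := hg.nonneg s
        have h2 : 0 ≤ η * s := mul_nonneg hη.le hs
        show -(h s ^ 2 - s ^ 2) ≤ η * s
        linarith⟩)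
    exact ⟨y₀, fun y hy' => by
      have := hy y hy'
      linarith⟩

theorem Good.maxmin (hdec : S_dec) (hmax : S_max) (hg : Good r h) :
    (∃ y₀, ∀ y, h y ^ 2 - y ^ 2 ≤ h y₀ ^ 2 - y₀ ^ 2) ∧
      ∃ y₀, ∀ y, h y₀ ^ 2 - y₀ ^ 2 ≤ h y ^ 2 - y ^ 2 := by
  obtain ⟨⟨a, ha⟩, ⟨b, hb⟩⟩ := hg.maxmin_pos hdec hmax
  obtain ⟨⟨c, hc⟩, ⟨d, hd⟩⟩ := hg.neg.maxmin_pos hdec hmax
  have hc' : ∀ y ≤ 0, h y ^ 2 - y ^ 2 ≤ h (-c) ^ 2 - (-c) ^ 2 := by
    intro y hy
    have := hc (-y) (by linarith)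
    simp only [neg_neg] at this
    rw [neg_sq] at this ⊢
    exact this
  have hd' : ∀ y ≤ 0, h (-d) ^ 2 - (-d) ^ 2 ≤ h y ^ 2 - y ^ 2 := by
    intro y hy
    have := hd (-y) (by linarith)
    simp only [neg_neg] at this
    rw [neg_sq] at this ⊢
    exact this
  constructor
  · rcases le_total (h a ^ 2 - a ^ 2) (h (-c) ^ 2 - (-c) ^ 2) with h1 | h1
    · refine ⟨-c, fun y => ?_⟩
      rcases le_total 0 y with hy | hy
      · exact (ha y hy).trans h1
      · exact hc' y hy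
    · refine ⟨a, fun y => ?_⟩
      rcases le_total 0 y with hy | hy
      · exact ha y hy
      · exact (hc' y hy).trans h1
  · rcases le_total (h b ^ 2 - b ^ 2) (h (-d) ^ 2 - (-d) ^ 2) with h1 | h1
    · refine ⟨b, fun y => ?_⟩
      rcases le_total 0 y with hy | hy
      · exact hb y hy
      · exact h1.trans (hd' y hy)
    · refine ⟨-d, fun y => ?_⟩
      rcases le_total 0 y with hy | hy
      · exact h1.trans (hb y hy)
      · exact hd' y hy

theorem Good.surj (hg : Good r h) (y : ℝ) : ∃ s, s + r * h s = y := by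
  have hc := hg.cont
  have h0 := hg.r0
  have h1 := hg.r1
  have : y ∈ Set.range (fun s => s + r * h s) := by
    apply mem_range_of_exists_le_of_exists_ge (by fun_prop)
    · refine ⟨-((|y| + r * h 0) / (1 - r)), ?_⟩
      set T := (|y| + r * h 0) / (1 - r) with hT
      have hT0 : 0 ≤ T := div_nonneg (add_nonneg (abs_nonneg y) (mul_nonneg h0.le (hg.pos 0).le))
        (by linarith)
      have hT1 : (1 - r) * T = |y| + r * h 0 := by
        rw [hT]; field_simp [show (1 - r) ≠ 0 by linarith]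
      have h2 := hg.lip (-T) 0
      have h3 := le_abs_self (h (-T) - h 0)
      rw [sub_zero, abs_neg, abs_of_nonneg hT0] at h2
      have h4 : h (-T) ≤ h 0 + T := by linarith
      have h5 : r * h (-T) ≤ r * (h 0 + T) := mul_le_mul_of_nonneg_left h4 h0.le
      have h6 := neg_abs_le y
      show -T + r * h (-T) ≤ y
      nlinarith
    · exact ⟨y, by have := mul_pos h0 (hg.pos y); show y ≤ y + r * h y; linarith⟩
  exact this

/-- the extreme sets are invariant -/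
theorem Good.inv_max (hg : Good r h) {M : ℝ} (hM : ∀ y, h y ^ 2 - y ^ 2 ≤ M) {y : ℝ}
    (hy : h y ^ 2 - y ^ 2 = M) :
    ∃ s, h s ^ 2 - s ^ 2 = M ∧ s + r * h s = y ∧ h (s + h s / r) ^ 2 - (s + h s / r) ^ 2 = M := by
  obtain ⟨s, hs⟩ := hg.surj y
  have h0 := hg.r0
  have h1 := hg.r1
  have h2 := hg.rel s
  rw [hs, hy] at h2
  have h3 := hM s
  have h4 := hM (s + h s / r)
  have hr2 : 0 < r ^ 2 := by positivity
  have hr3 : 0 < 1 - r ^ 2 := by nlinarith
  refine ⟨s, ?_, hs, ?_⟩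
  · by_contra hne
    have h5 : h s ^ 2 - s ^ 2 < M := lt_of_le_of_ne h3 hne
    nlinarith
  · by_contra hne
    have h5 : h (s + h s / r) ^ 2 - (s + h s / r) ^ 2 < M := lt_of_le_of_ne h4 hne
    nlinarith

theorem Good.inv_min (hg : Good r h) {M : ℝ} (hM : ∀ y, M ≤ h y ^ 2 - y ^ 2) {y : ℝ}
    (hy : h y ^ 2 - y ^ 2 = M) :
    ∃ s, h s ^ 2 - s ^ 2 = M ∧ s + r * h s = y ∧ h (s + h s / r) ^ 2 - (s + h s / r) ^ 2 = M := by
  obtain ⟨s, hs⟩ := hg.surj y
  have h0 := hg.r0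
  have h1 := hg.r1
  have h2 := hg.rel s
  rw [hs, hy] at h2
  have h3 := hM s
  have h4 := hM (s + h s / r)
  have hr2 : 0 < r ^ 2 := by positivity
  have hr3 : 0 < 1 - r ^ 2 := by nlinarith
  refine ⟨s, ?_, hs, ?_⟩
  · by_contra hne
    have h5 : M < h s ^ 2 - s ^ 2 := lt_of_le_of_ne h3 (Ne.symm hne)
    nlinarith
  · by_contra hne
    have h5 : M < h (s + h s / r) ^ 2 - (s + h s / r) ^ 2 := lt_of_le_of_ne h4 (Ne.symm hne)
    nlinarith

/-- a set with the invariance is unbounded -/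
theorem Good.unbdd (hg : Good r h) {M : ℝ}
    (hinv : ∀ y, h y ^ 2 - y ^ 2 = M → ∃ s, h s ^ 2 - s ^ 2 = M ∧ s + r * h s = y ∧
      h (s + h s / r) ^ 2 - (s + h s / r) ^ 2 = M) {y : ℝ} (hy : h y ^ 2 - y ^ 2 = M) (N : ℝ) :
    ∃ z, h z ^ 2 - z ^ 2 = M ∧ N ≤ z := by
  have h0 := hg.r0
  have h1 := hg.r1
  have hd : 0 < (1 / r - r) * (h 0 / 2) := by
    have h2 : 1 < 1 / r := by rw [lt_div_iff₀ h0]; linarith
    have h3 := hg.pos 0
    apply mul_pos <;> linarith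
  have key : ∀ n : ℕ, ∃ z, h z ^ 2 - z ^ 2 = M ∧ y + n * ((1 / r - r) * (h 0 / 2)) ≤ z := by
    intro n
    induction n with
    | zero => exact ⟨y, hy, by simp⟩
    | succ n ih =>
      obtain ⟨z, hz, hz2⟩ := ih
      obtain ⟨s, -, hs2, hs3⟩ := hinv z hz
      refine ⟨_, hs3, ?_⟩
      have h2 : 1 < 1 / r := by rw [lt_div_iff₀ h0]; linarith
      have h3 := hg.half s
      have h4 : (1 / r - r) * (h 0 / 2) ≤ (1 / r - r) * h s :=
        mul_le_mul_of_nonneg_left h3 (by linarith)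
      have h5 : s + h s / r = z + (1 / r - r) * h s := by rw [← hs2]; ring
      rw [h5]
      push_cast
      nlinarith
  obtain ⟨n, hn⟩ := exists_nat_gt ((N - y) / ((1 / r - r) * (h 0 / 2)))
  obtain ⟨z, hz, hz2⟩ := key n
  refine ⟨z, hz, ?_⟩
  rw [div_lt_iff₀ hd] at hn
  linarith

theorem const (hdec : S_dec) (hmax : S_max) (hkro : S_kro) (hstep : S_step) (hg : Good r h) :
    ∃ M : ℝ, 0 < M ∧ ∀ s, h s ^ 2 = s ^ 2 + M := by
  obtain ⟨⟨y₀, hy₀⟩, ⟨y₁, hy₁⟩⟩ := hg.maxmin hdec hmax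
  have h0 := hg.r0
  have h1 := hg.r1
  set M := h y₀ ^ 2 - y₀ ^ 2 with hM
  set m := h y₁ ^ 2 - y₁ ^ 2 with hm
  have hM0 : 0 < M := by
    have h2 := hy₀ 0
    have h3 := hg.pos 0
    have h4 : 0 < h 0 ^ 2 := by positivity
    linarith
  have hm0 : 0 ≤ m := hg.nonneg y₁
  have hmM : m ≤ M := hy₀ y₁
  refine ⟨M, hM0, ?_⟩
  suffices hle : M ≤ m by
    intro s
    have h2 := hy₀ s
    have h3 := hy₁ s
    linarith
  by_contra hlt
  push Not at hlt
  -- the constant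
  have hmM2 : m ^ 2 < M ^ 2 := by nlinarith
  obtain ⟨R, hR1, hR2⟩ : ∃ R : ℝ, 1 < R ∧ m ^ 2 * R < M ^ 2 := by
    refine ⟨1 + (M ^ 2 - m ^ 2) / (2 * (m ^ 2 + 1)), ?_, ?_⟩
    · have : 0 < (M ^ 2 - m ^ 2) / (2 * (m ^ 2 + 1)) := div_pos (by linarith) (by positivity)
      linarith
    · have h2 : 0 < (M ^ 2 - m ^ 2) / (2 * (m ^ 2 + 1)) := div_pos (by linarith) (by positivity)
      have h3 : (M ^ 2 - m ^ 2) / (2 * (m ^ 2 + 1)) * (2 * (m ^ 2 + 1)) = M ^ 2 - m ^ 2 :=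
        div_mul_cancel₀ _ (by positivity)
      nlinarith
  have hlogR : 0 < Real.log R := Real.log_pos hR1
  have ha : 0 < Real.log (1 + r) := Real.log_pos (by linarith)
  have hb : 0 < Real.log (1 / r) := Real.log_pos (by rw [lt_div_iff₀ h0]; linarith)
  obtain ⟨p, q, hp, hq, hpq0, hpq⟩ := hkro _ _ (Real.log R / 2) ha hb (by positivity)
  have hL : (1 / r) ^ q / (1 + r) ^ p =
      Real.exp (q * Real.log (1 / r) - p * Real.log (1 + r)) := by
    rw [Real.exp_sub, ← Real.log_pow, ← Real.log_pow, Real.exp_log (by positivity),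
      Real.exp_log (by positivity)]
  have hL1 : 1 ≤ (1 / r) ^ q / (1 + r) ^ p := by
    rw [hL]; exact Real.one_le_exp hpq0
  have hL2 : ((1 / r) ^ q / (1 + r) ^ p) ^ 2 ≤ R := by
    rw [hL, ← Real.exp_nat_mul]
    calc Real.exp (((2 : ℕ) : ℝ) * (q * Real.log (1 / r) - p * Real.log (1 + r)))
        ≤ Real.exp (Real.log R) := by
          apply Real.exp_le_exp.2
          push_cast
          linarith
      _ = R := Real.exp_log (by linarith)
  -- points of the maximal set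
  have hinv := fun y (hy : h y ^ 2 - y ^ 2 = M) => hg.inv_max hy₀ hy
  have hinvm := fun y (hy : h y ^ 2 - y ^ 2 = m) => hg.inv_min hy₁ hy
  have hZ : ∀ y ∈ {y | h y ^ 2 - y ^ 2 = M}, ∃ s ∈ {y | h y ^ 2 - y ^ 2 = M},
      s + r * √(s ^ 2 + M) = y ∧ s + √(s ^ 2 + M) / r ∈ {y | h y ^ 2 - y ^ 2 = M} := by
    intro y hy
    obtain ⟨s, hs1, hs2, hs3⟩ := hinv y hy
    have h2 : √(s ^ 2 + M) = h s := by
      rw [show s ^ 2 + M = h s ^ 2 by linarith]
      exact Real.sqrt_sq (hg.pos s).le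
    refine ⟨s, hs1, ?_, ?_⟩
    · rw [h2]; exact hs2
    · rw [h2]; exact hs3
  obtain ⟨Y, hY, hY1⟩ := hg.unbdd hinv hM.symm (M + 1)
  have hY0 : 0 < Y := by linarith
  have hYM : M ≤ Y ^ 2 := by nlinarith
  -- a large point of the minimal set
  have hD : 0 < M ^ 2 - m ^ 2 * R := by linarith
  obtain ⟨z, hz, hz1⟩ := hg.unbdd hinvm hm.symm
    (Y + 1 + m ^ 2 * (R * M + M) / (M ^ 2 - m ^ 2 * R))
  have hfr : 0 ≤ m ^ 2 * (R * M + M) / (M ^ 2 - m ^ 2 * R) := by positivity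
  have hzY : Y ≤ z := by linarith
  have hz0 : 0 < z := by linarith
  have hcomp : IsCompact ({y | h y ^ 2 - y ^ 2 = M} ∩ Set.Icc Y z) := by
    apply IsCompact.inter_left isCompact_Icc
    have hc := hg.cont
    exact isClosed_eq (by fun_prop) continuous_const
  obtain ⟨w, ⟨hw1, hw2⟩, hw3⟩ := hcomp.exists_isGreatest ⟨Y, hY, le_refl _, hzY⟩
  have hw0 : 0 < w := lt_of_lt_of_le hY0 hw2.1
  have hwM : M ≤ w ^ 2 := hYM.trans (pow_le_pow_left₀ hY0.le hw2.1 2)
  obtain ⟨y', hy'1, hy'2, hy'3, hy'4⟩ := hstep r M _ h0 h1 hM0 hZ p q hp hL1 w hw1 hw0 hwM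
  have hy'z : z < y' := by
    by_contra hcon
    push Not at hcon
    have h2 : y' ≤ w := hw3 ⟨hy'1, (hw2.1.trans hy'3.le), hcon⟩
    linarith
  have hy'5 : y' ^ 2 ≤ R * (z ^ 2 + M) := by
    have h2 : w ^ 2 ≤ z ^ 2 := pow_le_pow_left₀ hw0.le hw2.2 2
    have h3 : 0 ≤ w ^ 2 + M := by positivity
    calc y' ^ 2 ≤ ((1 / r) ^ q / (1 + r) ^ p) ^ 2 * (w ^ 2 + M) := hy'4
      _ ≤ R * (w ^ 2 + M) := mul_le_mul_of_nonneg_right hL2 h3
      _ ≤ R * (z ^ 2 + M) := mul_le_mul_of_nonneg_left (by linarith) (by linarith)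
  -- comparison
  have hlip := hg.lip y' z
  have h2 := le_abs_self (h y' - h z)
  rw [abs_of_pos (sub_pos.2 hy'z)] at hlip
  have h3 : h y' - y' ≤ h z - z := by linarith
  have hy'M : (h y' - y') * (h y' + y') = M := by
    have : h y' ^ 2 - y' ^ 2 = M := hy'1
    linarith [this]
  have hzm : (h z - z) * (h z + z) = m := by linarith [hz]
  have hza := (le_abs_self z).trans (hg.abs z)
  have hya := (le_abs_self y').trans (hg.abs y')
  have hpy : 0 < h y' + y' := by linarith [hg.pos y']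
  have h4 : M * (2 * z) ≤ m * (h y' + y') := by
    have h5 : M ≤ (h z - z) * (h y' + y') := by
      rw [← hy'M]; exact mul_le_mul_of_nonneg_right h3 hpy.le
    have h6 : (h z - z) * (2 * z) ≤ m := by
      rw [← hzm]; exact mul_le_mul_of_nonneg_left (by linarith) (by linarith)
    calc M * (2 * z) ≤ (h z - z) * (h y' + y') * (2 * z) :=
          mul_le_mul_of_nonneg_right h5 (by linarith)
      _ = (h z - z) * (2 * z) * (h y' + y') := by ring
      _ ≤ m * (h y' + y') := mul_le_mul_of_nonneg_right h6 hpy.le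
  have h5 : (h y' + y') ^ 2 ≤ 4 * (y' ^ 2 + M) := by
    have h6 : h y' ^ 2 = y' ^ 2 + M := by
      have : h y' ^ 2 - y' ^ 2 = M := hy'1
      linarith
    nlinarith [sq_nonneg (h y' - y')]
  have h6 : (M * (2 * z)) ^ 2 ≤ (m * (h y' + y')) ^ 2 :=
    pow_le_pow_left₀ (by positivity) h4 2
  have h7 : M ^ 2 * z ^ 2 ≤ m ^ 2 * (R * (z ^ 2 + M) + M) := by
    have h8 : m ^ 2 * (h y' + y') ^ 2 ≤ m ^ 2 * (4 * (y' ^ 2 + M)) :=
      mul_le_mul_of_nonneg_left h5 (by positivity)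
    have h9 : m ^ 2 * (4 * (y' ^ 2 + M)) ≤ m ^ 2 * (4 * (R * (z ^ 2 + M) + M)) :=
      mul_le_mul_of_nonneg_left (by linarith) (by positivity)
    nlinarith
  have h8 : (M ^ 2 - m ^ 2 * R) * z ^ 2 ≤ m ^ 2 * (R * M + M) := by nlinarith
  have h9 : m ^ 2 * (R * M + M) < (M ^ 2 - m ^ 2 * R) * z := by
    have h10 : m ^ 2 * (R * M + M) / (M ^ 2 - m ^ 2 * R) < z := by linarith
    rw [div_lt_iff₀ hD] at h10
    linarith
  have h10 : z ≤ z ^ 2 := by nlinarith
  have h11 : (M ^ 2 - m ^ 2 * R) * z ≤ (M ^ 2 - m ^ 2 * R) * z ^ 2 :=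
    mul_le_mul_of_nonneg_left h10 hD.le
  linarith

end Pool.Agent.J6H94.AP
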