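import Pool.Agent.J6H94.AP.End

/-!
# Normed planes in which a circle is an Apollonius set: conclusion (helper94)
-/

set_option autoImplicit false

namespace Pool.Agent.J6H94.AP

section

variable {E : Type} [NormedAddCommGroup E] [NormedSpace ℝ E]

/-- the norm is given by a quadratic form -/
theorem norm_form {x₀ e : E} {M : ℝ} (he : ‖e‖ = 1) (hM : ∀ s : ℝ, ‖x₀ + s • e‖ ^ 2 = s ^ 2 + M)
    (α β : ℝ) : ‖α • x₀ + β • e‖ ^ 2 = α ^ 2 * M + β ^ 2 := by
  by_cases hα : α = 0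
  · subst hα
    rw [zero_smul, zero_add, norm_smul, he, mul_one, Real.norm_eq_abs, sq_abs]
    ring
  · have h1 : α • x₀ + β • e = α • (x₀ + (β / α) • e) := by
      rw [smul_add, smul_smul, mul_div_cancel₀ _ hα]
    rw [h1, norm_smul, mul_pow, hM, Real.norm_eq_abs, sq_abs]
    field_simp
    ring

theorem parallelogram {x₀ e : E} {M : ℝ} (he : ‖e‖ = 1) (hM : ∀ s : ℝ, ‖x₀ + s • e‖ ^ 2 = s ^ 2 + M)
    (hsp : ∀ v : E, ∃ α β : ℝ, v = α • x₀ + β • e) (x y : E) :
    ‖x + y‖ * ‖x + y‖ + ‖x - y‖ * ‖x - y‖ = 2 * (‖x‖ * ‖x‖ + ‖y‖ * ‖y‖) := by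
  obtain ⟨α, β, rfl⟩ := hsp x
  obtain ⟨γ, δ, rfl⟩ := hsp y
  have h1 : α • x₀ + β • e + (γ • x₀ + δ • e) = (α + γ) • x₀ + (β + δ) • e := by module
  have h2 : α • x₀ + β • e - (γ • x₀ + δ • e) = (α - γ) • x₀ + (β - δ) • e := by module
  rw [h1, h2]
  simp only [← pow_two, norm_form he hM]
  ring

end

/-- a circle contained in an Apollonius set: the norm satisfies the parallelogram identity -/
theorem plane (hdec : S_dec) (hmax : S_max) (hkro : S_kro) (hstep : S_step) (hlin : S_lin) (hpl : S_pl)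
    (E : Type) [NormedAddCommGroup E] [NormedSpace ℝ E] [StrictConvexSpace ℝ E]
    (hE : Module.finrank ℝ E = 2) (F A B : E) (a r : ℝ) (ha : 0 < a) (hr : 0 < r) (hr1 : r ≠ 1)
    (hs : Metric.sphere F a ⊆ {C | dist A C / dist C B = r}) (x y : E) :
    ‖x + y‖ * ‖x + y‖ + ‖x - y‖ * ‖x - y‖ = 2 * (‖x‖ * ‖x‖ + ‖y‖ * ‖y‖) := by
  have hnt : Nontrivial E := Module.nontrivial_of_finrank_pos (R := ℝ) (by omega)
  have key : ∀ x : E, ‖x‖ = 1 → ‖x - a⁻¹ • (A - F)‖ = r * ‖x - a⁻¹ • (B - F)‖ := by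
    intro x hx
    have h1 : F + a • x ∈ Metric.sphere F a := by
      rw [mem_sphere_iff_norm, add_sub_cancel_left, norm_smul, hx, mul_one, Real.norm_eq_abs,
        abs_of_pos ha]
    have h2 : dist A (F + a • x) / dist (F + a • x) B = r := hs h1
    have h3 : dist (F + a • x) B ≠ 0 := by
      intro h0
      rw [h0, div_zero] at h2
      exact hr.ne h2
    rw [div_eq_iff h3, dist_comm, dist_eq_norm, dist_eq_norm] at h2
    have h4 : F + a • x - A = a • (x - a⁻¹ • (A - F)) := by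
      rw [smul_sub, smul_smul, mul_inv_cancel₀ ha.ne', one_smul]; abel
    have h5 : F + a • x - B = a • (x - a⁻¹ • (B - F)) := by
      rw [smul_sub, smul_smul, mul_inv_cancel₀ ha.ne', one_smul]; abel
    rw [h4, h5, norm_smul, norm_smul, Real.norm_eq_abs, abs_of_pos ha] at h2
    have h6 : a * ‖x - a⁻¹ • (A - F)‖ = a * (r * ‖x - a⁻¹ • (B - F)‖) := by rw [h2]; ring
    exact mul_left_cancel₀ ha.ne' h6
  obtain ⟨r', A', B', hr0', hr1', key'⟩ : ∃ (r' : ℝ) (A' B' : E), 0 < r' ∧ r' < 1 ∧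
      ∀ x : E, ‖x‖ = 1 → ‖x - A'‖ = r' * ‖x - B'‖ := by
    rcases lt_or_gt_of_ne hr1 with h | h
    · exact ⟨r, _, _, hr, h, key⟩
    · refine ⟨r⁻¹, a⁻¹ • (B - F), a⁻¹ • (A - F), inv_pos.2 hr, inv_lt_one_of_one_lt₀ h,
        fun x hx => ?_⟩
      rw [key x hx, ← mul_assoc, inv_mul_cancel₀ hr.ne', one_mul]
  obtain ⟨e, he, heq⟩ := hlin E r' A' B' hr0' hr1' key'
  obtain ⟨x₀, hg, hsp⟩ := hpl E hE r' e hr0' hr1' he heq
  obtain ⟨M, -, hM⟩ := const hdec hmax hkro hstep hg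
  exact parallelogram he hM hsp x y

theorem euclid {E : Type} [NormedAddCommGroup E] [NormedSpace ℝ E]
    (hE : Module.finrank ℝ E = 2)
    (h : ∀ x y : E, ‖x + y‖ * ‖x + y‖ + ‖x - y‖ * ‖x - y‖ = 2 * (‖x‖ * ‖x‖ + ‖y‖ * ‖y‖)) :
    Nonempty (E ≃ₗᵢ[ℝ] EuclideanSpace ℝ (Fin 2)) := by
  letI : InnerProductSpace ℝ E := InnerProductSpace.ofNorm (𝕜 := ℝ) h
  have hfin : Module.Finite ℝ E := Module.finite_of_finrank_pos (by omega)
  exact ⟨((stdOrthonormalBasis ℝ E).reindex (finCongr hE)).repr⟩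

/-- in the Euclidean plane each circle is an Apollonius set (known) -/
theorem circles (F : EuclideanSpace ℝ (Fin 2)) (a : ℝ) (ha : 0 < a) :
    ∃ (A B : EuclideanSpace ℝ (Fin 2)), A ≠ B ∧
      Metric.sphere F a = {C | dist A C / dist C B = 1 / 2} := by
  obtain ⟨e, he⟩ : ∃ e : EuclideanSpace ℝ (Fin 2), ‖e‖ = 1 := exists_norm_eq _ zero_le_one
  refine ⟨F + (a / 2) • e, F + (2 * a) • e, ?_, ?_⟩
  · intro h
    have h1 : (a / 2) • e = (2 * a) • e := add_left_cancel h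
    have h2 : ‖(a / 2) • e‖ = ‖(2 * a) • e‖ := by rw [h1]
    rw [norm_smul, norm_smul, he, Real.norm_eq_abs, Real.norm_eq_abs, abs_of_pos (by positivity),
      abs_of_pos (by positivity)] at h2
    linarith
  · ext C
    have h1 : dist (F + (a / 2) • e) C ^ 2 =
        ‖C - F‖ ^ 2 - a * inner ℝ (C - F) e + a ^ 2 / 4 := by
      rw [dist_comm, dist_eq_norm, show C - (F + (a / 2) • e) = (C - F) - (a / 2) • e by abel,
        norm_sub_sq_real, norm_smul, inner_smul_right, he, Real.norm_eq_abs, mul_one, sq_abs]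
      ring
    have h2 : dist C (F + (2 * a) • e) ^ 2 =
        ‖C - F‖ ^ 2 - 4 * a * inner ℝ (C - F) e + 4 * a ^ 2 := by
      rw [dist_eq_norm, show C - (F + (2 * a) • e) = (C - F) - (2 * a) • e by abel,
        norm_sub_sq_real, norm_smul, inner_smul_right, he, Real.norm_eq_abs, mul_one, sq_abs]
      ring
    rw [mem_sphere_iff_norm, Set.mem_setOf_eq]
    constructor
    · intro h
      rw [h] at h1 h2
      have h3 : (2 * dist (F + (a / 2) • e) C) ^ 2 = dist C (F + (2 * a) • e) ^ 2 := by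
        rw [mul_pow, h1, h2]; ring
      have h4 : 2 * dist (F + (a / 2) • e) C = dist C (F + (2 * a) • e) :=
        (pow_left_inj₀ (by positivity) dist_nonneg two_ne_zero).1 h3
      have h5 : dist C (F + (2 * a) • e) ≠ 0 := by
        intro h0
        rw [dist_eq_zero] at h0
        rw [h0, add_sub_cancel_left, norm_smul, he, Real.norm_eq_abs, mul_one,
          abs_of_pos (by positivity)] at h
        linarith
      rw [div_eq_iff h5, ← h4]; ring
    · intro h
      have h5 : dist C (F + (2 * a) • e) ≠ 0 := by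
        intro h0
        rw [h0, div_zero] at h
        norm_num at h
      rw [div_eq_iff h5] at h
      have h3 : 4 * dist (F + (a / 2) • e) C ^ 2 = dist C (F + (2 * a) • e) ^ 2 := by
        rw [h]; ring
      rw [h1, h2] at h3
      have h4 : ‖C - F‖ ^ 2 = a ^ 2 := by linarith
      exact (pow_left_inj₀ (norm_nonneg _) ha.le two_ne_zero).1 h4

theorem circles' {E : Type} [NormedAddCommGroup E] [NormedSpace ℝ E]
    (f : E ≃ₗᵢ[ℝ] EuclideanSpace ℝ (Fin 2)) (F : E) (a : ℝ) (ha : 0 < a) :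
    ∃ (A B : E) (r : ℝ), A ≠ B ∧ 0 < r ∧ r ≠ 1 ∧
      Metric.sphere F a = {C | dist A C / dist C B = r} := by
  obtain ⟨A, B, hAB, h⟩ := circles (f F) a ha
  refine ⟨f.symm A, f.symm B, 1 / 2, fun h' => hAB (f.symm.injective h'), by norm_num,
    by norm_num, ?_⟩
  ext C
  have h1 : f C ∈ Metric.sphere (f F) a ↔ f C ∈ {C | dist A C / dist C B = 1 / 2} := by rw [h]
  have h2 : dist (f.symm A) C = dist A (f C) := by
    rw [← f.dist_map, f.apply_symm_apply]
  have h3 : dist C (f.symm B) = dist (f C) B := by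
    rw [← f.dist_map, f.apply_symm_apply]
  rw [Metric.mem_sphere, f.dist_map, Set.mem_setOf_eq, ← h2, ← h3] at h1
  rw [Metric.mem_sphere, Set.mem_setOf_eq]
  exact h1

end Pool.Agent.J6H94.AP
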