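import Mathlib

/-!
# Normed planes in which a circle is an Apollonius set: statements of the modules (helper94)
-/

set_option autoImplicit false

namespace Pool.Agent.J6H94.AP

/-- The conditions on the function `h s = ‖x₀ + s • e‖`. -/
structure Good (r : ℝ) (h : ℝ → ℝ) : Prop where
  r0 : 0 < r
  r1 : r < 1
  pos : ∀ s, 0 < h s
  abs : ∀ s, |s| ≤ h s
  lip : ∀ s t, |h s - h t| ≤ |s - t|
  eq1 : ∀ s, h (s - r * h s) = r * h (s - h s / r)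
  eq2 : ∀ s, h (s + r * h s) = r * h (s + h s / r)

/-- (AP-DEC) Proof. `δ s := h s - s ≥ 0` (by `abs`) is antitone (`lip`: for `s ≤ t`, `h t ≤ h s + (t - s)`).
Let `D` be the infimum of `δ` on `[0, ∞)`; `D ≥ 0`. Claim `D = 0`. By `eq1` and `abs`:
`h (s - r h s) = r h (s - h s / r) ≥ r (h s / r - s) = h s - r s`, so
`δ (s - r h s) = h (s - r h s) - (s - r h s) ≥ (1 + r) (h s - s) = (1 + r) δ s`. Given `η > 0` there is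
`s₀ ≥ 0` with `δ s₀ < D + η`; take `s` with `s - r h s ≥ s₀` (`h s ≤ h 0 + s`, so `s - r h s ≥ (1 - r) s - r h 0`);
then `(1 + r) D ≤ (1 + r) δ s ≤ δ (s - r h s) ≤ δ s₀ < D + η`. So `r D ≤ η` for all `η > 0`, `D = 0`. So for each
`η' > 0` there is `R > 0` with `h s - s ≤ η'` for `s ≥ R`, and then
`h s ^ 2 - s ^ 2 = (h s - s) (h s + s) ≤ η' (2 s + η')`, which is `≤ η s` if `η' = min (η / 4) 1` and
`s ≥ max R 1`. -/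
def S_dec : Prop := ∀ (r : ℝ) (h : ℝ → ℝ), Good r h → ∀ η > 0, ∃ R, ∀ s ≥ R,
  h s ^ 2 - s ^ 2 ≤ η * s

/-- (AP-MAX) a maximum principle. Proof. Note `(1 - r ^ 2) s + r ^ 2 (s + h s / r) = s + r h s`: linear functions
satisfy the relation. Let `c = r h 0` and let `y₀` be a maximum point of `G` on the compact `[0, c]`. Let `ε > 0`,
`F y = G y - ε (y - 1 / (1 + y))` for `y ≥ 0`. `F` is continuous on `[0, ∞)` and `F y < F 0` for `y ≥ R`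
(as `G y ≤ (ε / 2) y` there), so `F` has a maximum point `y₁` on `[0, ∞)`. If `y₁ > c` then by the intermediate
value theorem for `s ↦ s + r h s` on `[0, y₁]` (values `c` and `> y₁`) there is `s ∈ (0, y₁)` with `s + r h s = y₁`. Put
`t = s + h s / r > y₁`. The relation for `G`, and the strict convexity of `1 / (1 + y)`
(`1 / (1 + y₁) < (1 - r ^ 2) / (1 + s) + r ^ 2 / (1 + t)` as `y₁ = (1 - r ^ 2) s + r ^ 2 t`, `s ≠ t`) give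
`F y₁ < (1 - r ^ 2) F s + r ^ 2 F t ≤ F y₁`, a contradiction. (By hand: with `A = 1 + s`, `B = 1 + t`, `w = r ^ 2`:
`((1 - w) / A + w / B) ((1 - w) A + w B) = 1 + w (1 - w) (A - B) ^ 2 / (A B)`.) So `y₁ ≤ c` and for all `y ≥ 0`:
`G y ≤ F y₁ + ε (y - 1 / (1 + y)) ≤ G y₀ + ε + ε y`. Let `ε → 0`. -/
def S_max : Prop := ∀ (r : ℝ) (h G : ℝ → ℝ), Good r h → Continuous G →
  (∀ s, G (s + r * h s) = (1 - r ^ 2) * G s + r ^ 2 * G (s + h s / r)) →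
  (∀ η > 0, ∃ R, ∀ s ≥ R, G s ≤ η * s) →
  ∃ y₀ ∈ Set.Icc 0 (r * h 0), ∀ y ≥ 0, G y ≤ G y₀

/-- (AP-KRO) Proof. Let `ε' = min ε b`. Dirichlet (`Real.exists_int_int_abs_mul_sub_le` or
`Real.exists_nat_abs_mul_sub_round_le`) for `b / a`: there are `k ≥ 1`, `j` with `|k b - j a| < ε'`. So `j a > k b - b ≥ 0`,
`j ≥ 1`. If `k b - j a ≥ 0` take `q = k`, `p = j`. Otherwise let `θ = j a - k b ∈ (0, ε')`, `N = ⌊b / θ⌋ ≥ 1`,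
`q = N k + 1`, `p = N j`: `q b - p a = b - N θ ∈ [0, θ)`. -/
def S_kro : Prop := ∀ a b ε : ℝ, 0 < a → 0 < b → 0 < ε →
  ∃ p q : ℕ, 1 ≤ p ∧ 1 ≤ q ∧ 0 ≤ q * b - p * a ∧ q * b - p * a < ε

/-- (AP-STEP) Proof. Let `c = (1 + r) M / (2 + r)`, `0 < c < M`.

(a) If `y ∈ Z`, `y > 0`, there is `t ∈ Z`, `t > 0`, `t ^ 2 + M = (y ^ 2 + M) / r ^ 2`: take `s` from the hypothesis,
`H = √(s ^ 2 + M)`, `t = s + H / r`: `(r t) ^ 2 - y ^ 2 = (1 - r ^ 2) (H ^ 2 - s ^ 2) = (1 - r ^ 2) M`, and `t > s + r H = y`.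

(b) If `y ∈ Z`, `y > 0`, `r ^ 2 M < y ^ 2`, there is `s ∈ Z`, `s > 0`, with `s ^ 2 + c ≥ (y ^ 2 + c) / (1 + r) ^ 2` and
`s ^ 2 ≤ y ^ 2 / (1 + r) ^ 2`: take `s` from the hypothesis. If `s ≤ 0` then `y = s + r √(s ^ 2 + M) ≤ r √M`
(`√(s ^ 2 + M) ≤ |s| + √M`, so `y ≤ s + r |s| + r √M ≤ r √M`), a contradiction. With `H = √(s ^ 2 + M) ≥ s > 0`:
`y ≥ (1 + r) s`; and `y ^ 2 = s ^ 2 + 2 r s H + r ^ 2 H ^ 2 ≤ s ^ 2 + r (2 s ^ 2 + M) + r ^ 2 (s ^ 2 + M)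
= (1 + r) ^ 2 s ^ 2 + r (1 + r) M`, and `c ((1 + r) ^ 2 - 1) = r (1 + r) M`.

Iterate (a) `q` times from `y`: `t ∈ Z`, `t > 0`, `t ^ 2 + M = (y ^ 2 + M) / r ^ (2 q)`. Iterate (b) `j ≤ p` times from `t`:
`s_j ∈ Z`, `s_j > 0`, `s_j ^ 2 + c ≥ (t ^ 2 + c) / (1 + r) ^ (2 j)`, `s_j ^ 2 ≤ t ^ 2 / (1 + r) ^ (2 j)`. For all `j ≤ p`
(`t ^ 2 + c) / (1 + r) ^ (2 j) ≥ (t ^ 2 + c) / (1 + r) ^ (2 p) = Λ ^ 2 (y ^ 2 + M) - (M - c) / (1 + r) ^ (2 p)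
> y ^ 2 + M - (M - c) = y ^ 2 + c`, with `Λ = (1 / r) ^ q / (1 + r) ^ p ≥ 1`, `p ≥ 1`. So `s_j ^ 2 > y ^ 2 ≥ M > r ^ 2 M`
and (b) can be applied again; `y' = s_p`: `y' ^ 2 > y ^ 2` and `y' ^ 2 ≤ t ^ 2 / (1 + r) ^ (2 p) ≤ Λ ^ 2 (y ^ 2 + M)`. -/
def S_step : Prop := ∀ (r M : ℝ) (Z : Set ℝ), 0 < r → r < 1 → 0 < M →
  (∀ y ∈ Z, ∃ s ∈ Z, s + r * √(s ^ 2 + M) = y ∧ s + √(s ^ 2 + M) / r ∈ Z) →
  ∀ p q : ℕ, 1 ≤ p → 1 ≤ (1 / r) ^ q / (1 + r) ^ p →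
  ∀ y ∈ Z, 0 < y → M ≤ y ^ 2 →
  ∃ y' ∈ Z, 0 < y' ∧ y < y' ∧ y' ^ 2 ≤ ((1 / r) ^ q / (1 + r) ^ p) ^ 2 * (y ^ 2 + M)

/-- (AP-LIN) Proof. Let `a = ‖A‖`, `b = ‖B‖`. For a unit vector `x`: `|1 - a| ≤ ‖x - A‖ ≤ 1 + a`, equality on the
right for `x = - A / a`, on the left for `x = A / a` (any unit vector if `A = 0`); same for `B`. So
`1 + a = r (1 + b)` and `|1 - a| = r |1 - b|` (compare the maxima and the minima of both sides of the hypothesis).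
Squares: `4 a = 4 r ^ 2 b`, so `a = r ^ 2 b`, `(1 - r) = r b (1 - r)`, `b = 1 / r`, `a = r`. Let `e = r • B`, `‖e‖ = 1`. For
`x = - e`: `‖e + A‖ = ‖x - A‖ = r ‖x - B‖ = r (1 + 1 / r) = 1 + r = ‖e‖ + ‖A‖`, so by strict convexity
(`sameRay_iff_norm_add`, `SameRay.norm_smul_eq`) `A = r • e`. So for unit `x`: `‖x - r • e‖ = r ‖x - r⁻¹ • e‖ =
‖r • x - e‖`. Scale to all `x` (`x = ‖x‖ • x₁`; trivial for `x = 0`). -/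
def S_lin : Prop := ∀ (E : Type) [NormedAddCommGroup E] [NormedSpace ℝ E] [StrictConvexSpace ℝ E]
  [Nontrivial E] (r : ℝ) (A B : E), 0 < r → r < 1 → (∀ x : E, ‖x‖ = 1 → ‖x - A‖ = r * ‖x - B‖) →
  ∃ e : E, ‖e‖ = 1 ∧ ∀ x : E, ‖x - (r * ‖x‖) • e‖ = ‖r • x - ‖x‖ • e‖

/-- (AP-PL) Proof. `exists_dual_vector` (or `exists_dual_vector''`): `f : E →L[ℝ] ℝ`, `‖f‖ = 1`, `f e = 1`. The kernel of `f`
is nonzero (`finrank = 2`): `x₀ ≠ 0`, `f x₀ = 0`. Let `h s = ‖x₀ + s • e‖`. `|s| = |f (x₀ + s • e)| ≤ h s`; `h s > 0`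
(if `x₀ + s • e = 0` then `s = 0` by `f`, `x₀ = 0`); `h` is 1-Lipschitz. `eq1`: the hypothesis for
`x = x₀ + s • e`: `x - (r h s) • e = x₀ + (s - r h s) • e`, `r • x - h s • e = r • (x₀ + (s - h s / r) • e)`. `eq2`: for
`x = -(x₀ + s • e)`. Spanning: `x₀`, `e` are linearly independent and the dimension is 2. -/
def S_pl : Prop := ∀ (E : Type) [NormedAddCommGroup E] [NormedSpace ℝ E], Module.finrank ℝ E = 2 →
  ∀ (r : ℝ) (e : E), 0 < r → r < 1 → ‖e‖ = 1 →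
  (∀ x : E, ‖x - (r * ‖x‖) • e‖ = ‖r • x - ‖x‖ • e‖) →
  ∃ x₀ : E, Good r (fun s => ‖x₀ + s • e‖) ∧ ∀ v : E, ∃ α β : ℝ, v = α • x₀ + β • e

end Pool.Agent.J6H94.AP
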